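import Pool.Agent.H18.HX.Targets
import Pool.Agent.H18.HIT.Basic

/-!
Row TRV of hx_modules: transfer of a dense orbit from the hypersurface to the variety.
-/

open MvPolynomial
open Pool.Agent.H12.ZD (pmap v O Res DenseOrbit NoInv)
open Pool.Agent.H18.HIT Pool.Agent.H18.HX

namespace Pool.Agent.H64.HX

theorem ev_hom {σ k : Type} [CommRing k] {q : MvPolynomial σ k} {n : ℕ} (h : q.IsHomogeneous n)
    (x : σ → k) (t : k) : eval (fun i => t * x i) q = t ^ n * eval x q := by
  rw [eval_eq, eval_eq, Finset.mul_sum]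
  refine Finset.sum_congr rfl fun d hd => ?_
  have h1 := h (mem_support_iff.1 hd)
  have h2 : (∏ i ∈ d.support, (t * x i) ^ d i) = t ^ n * ∏ i ∈ d.support, x i ^ d i := by
    rw [Finset.prod_congr rfl fun i _ => mul_pow t (x i) (d i), Finset.prod_mul_distrib,
      Finset.prod_pow_eq_pow_sum]
    congr 2
    rw [← h1, Finsupp.weight_apply, Finsupp.sum]
    refine Finset.sum_congr rfl fun i _ => ?_
    simp
  rw [h2]
  ring

theorem eval_aeval' {L M : ℕ} {k : Type} [CommRing k] (l : Fin M → Po L k) (q : Po M k)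
    (x : Fin L → k) : eval x (aeval l q) = eval (fun i => eval x (l i)) q := by
  have h : (aeval x : Po L k →ₐ[k] k).comp (aeval l : Po M k →ₐ[k] Po L k) =
      aeval (fun i => eval x (l i)) := by
    apply algHom_ext
    intro i
    rw [AlgHom.comp_apply, aeval_X, aeval_X]
    rfl
  exact DFunLike.congr_fun h q

theorem not_dvd_up {N : ℕ} {k : Type} [Field k] {P : Po (N + 1) k} (hm : Mny P)
    (hi : Irreducible P) {Δ : Po N k} (h0 : Δ ≠ 0) : ¬ P ∣ up Δ := by
  rintro ⟨A, hA⟩
  have h1 : ∀ q : Po N k, finSuccEquiv k N (up q) = Polynomial.C q := by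
    intro q
    unfold up
    induction q using MvPolynomial.induction_on with
    | C a => rw [rename_C, finSuccEquiv_apply, eval₂Hom_C]; rfl
    | add p q hp hq => rw [map_add, map_add, hp, hq, map_add]
    | mul_X p i hp => rw [map_mul, rename_X, map_mul, hp, finSuccEquiv_X_succ, map_mul]
  have h2 : Polynomial.C Δ = finSuccEquiv k N P * finSuccEquiv k N A := by
    rw [← h1, hA, map_mul]
  have hC : (Polynomial.C Δ : Polynomial (Po N k)) ≠ 0 := by
    rw [Ne, Polynomial.C_eq_zero]
    exact h0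
  have h3 : finSuccEquiv k N P ≠ 0 := fun h => hC (by rw [h2, h, zero_mul])
  have h4 : finSuccEquiv k N A ≠ 0 := fun h => hC (by rw [h2, h, mul_zero])
  have h5 := Polynomial.natDegree_mul h3 h4
  rw [← h2, Polynomial.natDegree_C] at h5
  have h6 : finSuccEquiv k N P = 1 := Polynomial.eq_one_of_monic_natDegree_zero hm (by omega)
  apply hi.not_isUnit
  have h7 : P = 1 := by
    apply (finSuccEquiv k N).injective
    rw [h6, map_one]
  rw [h7]
  exact isUnit_one

theorem pf_TRV (hPTS : T_PTS) : T_TRV := by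
  intro L N r δ d m k _ _ _ I _ l P Δ g F b hPro hIh hg hgI hF hgF hbm hbI
  obtain ⟨hP1, hP2, -⟩ := hPTS L N r δ k I l P Δ hPro hIh
  have hupΔ : (up Δ).IsHomogeneous δ := hPro.dhom.rename_isHomogeneous
  have hup : ∀ q : Po N k, aeval l (up q) = aeval (fun j : Fin N => l j.succ) q := by
    intro q
    unfold up
    rw [aeval_rename]
    rfl
  have hPp : Prime P := hPro.hyp.irr.prime
  have hΔ : ¬ P ∣ up Δ := not_dvd_up hPro.hyp.mon hPro.hyp.irr hPro.dne
  have hΔI : aeval (fun j : Fin N => l j.succ) Δ ∉ I := by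
    rw [← hup, hPro.ker]
    exact hΔ
  have hIp : I.IsPrime := inferInstance
  obtain ⟨B, hBh, hB⟩ := hPro.den m b hbm
  have hPB : ¬ P ∣ B := by
    intro h
    rw [← hPro.ker] at h
    have h1 := I.add_mem hB h
    rw [sub_add_cancel] at h1
    rcases hIp.mem_or_mem h1 with h2 | h2
    · exact hΔI h2
    · exact hbI h2
  refine ⟨B * up Δ, ⟨m + δ + δ, hBh.mul hupΔ⟩, ?_, ?_⟩
  · intro h
    rcases hPp.dvd_or_dvd h with h1 | h1
    · exact hPB h1
    · exact hΔ h1
  intro y hy hyb hyd
  -- the map to the hypersurface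
  obtain ⟨φ, hφ⟩ : ∃ φ : (Fin L → k) → (Fin (N + 1) → k), φ = fun x i => eval x (l i) := ⟨_, rfl⟩
  obtain ⟨D, hD⟩ : ∃ D : (Fin L → k) → k, D = fun x => eval (φ x) (up Δ) := ⟨_, rfl⟩
  have hDx : ∀ x, eval x (aeval (fun j : Fin N => l j.succ) Δ) = D x := by
    intro x
    rw [← hup, eval_aeval', hD, hφ]
  have hupe : ∀ z : Fin (N + 1) → k, eval z (up Δ) = eval (fun j : Fin N => z j.succ) Δ := by
    intro z
    unfold up
    rw [eval_rename]
    rfl
  have hy0 : eval y (up Δ) ≠ 0 := by
    have h := hyb 0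
    rw [map_mul] at h
    exact right_ne_zero_of_mul h
  obtain ⟨a, ha, hay⟩ := hP2 y hy (by rw [← hupe]; exact hy0)
  have hstep : ∀ x, Zer I x → ∀ i, D x * φ (pmap g x) i = eval (φ x) (F i) := by
    intro x hx i
    have h := hx _ (hgF i)
    rw [map_sub, map_mul, hDx, eval_aeval, eval_aeval', sub_eq_zero] at h
    rw [hφ]
    exact h
  have hden : ∀ (t : ℕ) (q : Po L k) (q' : Po (N + 1) k),
      aeval (fun j => l j.succ) Δ * q - aeval l q' ∈ I → ∀ x, Zer I x →
        D x * eval x q = eval (φ x) q' := by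
    intro t q q' hq x hx
    have h := hx _ hq
    rw [map_sub, map_mul, hDx, eval_aeval', sub_eq_zero] at h
    rw [hφ]
    exact h
  have key : ∀ n : ℕ, Zer I ((pmap g)^[n] a) ∧ ∃ t : k, t ≠ 0 ∧
      (pmap F)^[n] y = (fun i => t * φ ((pmap g)^[n] a) i) ∧ D ((pmap g)^[n] a) ≠ 0 := by
    intro n
    have hlast : ∀ (x : Fin L → k) (t : k), (pmap F)^[n] y = (fun i => t * φ x i) → D x ≠ 0 := by
      intro x t h h0
      have h1 := hyb n
      rw [map_mul] at h1
      have h2 := right_ne_zero_of_mul h1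
      rw [h, ev_hom hupΔ] at h2
      have h3 := right_ne_zero_of_mul h2
      rw [hD] at h0
      exact h3 h0
    induction n with
    | zero =>
      refine ⟨ha, 1, one_ne_zero, ?_, ?_⟩
      · funext i
        rw [one_mul, Function.iterate_zero, Function.iterate_zero, id, id, hφ]
        exact (hay i).symm
      · refine hlast _ 1 ?_
        funext i
        rw [one_mul, Function.iterate_zero, Function.iterate_zero, id, id, hφ]
        exact (hay i).symm
    | succ n ih =>
      obtain ⟨hz, t, ht, hFt, hDn⟩ := ih (by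
        intro x t h h0
        have h1 := hyb n
        rw [map_mul] at h1
        have h2 := right_ne_zero_of_mul h1
        rw [h, ev_hom hupΔ] at h2
        have h3 := right_ne_zero_of_mul h2
        rw [hD] at h0
        exact h3 h0)
      have hz' : Zer I ((pmap g)^[n + 1] a) := by
        rw [Function.iterate_succ_apply']
        intro c hc
        rw [← eval_aeval]
        exact hz _ (hgI c hc)
      have hF' : (pmap F)^[n + 1] y =
          (fun i => (t ^ (d + δ) * D ((pmap g)^[n] a)) * φ ((pmap g)^[n + 1] a) i) := by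
        rw [Function.iterate_succ_apply', hFt]
        funext i
        change eval _ (F i) = _
        rw [ev_hom (hF i), ← hstep _ hz i, Function.iterate_succ_apply']
        ring
      exact ⟨hz', _, mul_ne_zero (pow_ne_zero _ ht) hDn, hF', hlast _ _ hF'⟩
  refine ⟨a, ha, ?_, ?_⟩
  · intro n h0
    obtain ⟨hz, t, ht, hFt, hDn⟩ := key n
    have h1 := hyb n
    rw [map_mul] at h1
    have h2 := left_ne_zero_of_mul h1
    rw [hFt, ev_hom hBh, ← hden m b B hB _ hz, h0, mul_zero, mul_zero] at h2
    exact h2 rfl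
  · intro t h hh hv
    obtain ⟨H, hHh, hH⟩ := hPro.den t h hh
    have h1 : P ∣ H := by
      apply hyd
      intro n
      obtain ⟨hz, s, hs, hFt, hDn⟩ := key n
      rw [hFt, ev_hom hHh, ← hden t h H hH _ hz, hv n, mul_zero, mul_zero]
    rw [← hPro.ker] at h1
    have h2 := I.add_mem hH h1
    rw [sub_add_cancel] at h2
    rcases hIp.mem_or_mem h2 with h3 | h3
    · exact absurd h3 hΔI
    · exact h3

end Pool.Agent.H64.HX
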